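import Pool.Agent.Helper20.NP.Stmts

set_option autoImplicit false

namespace Pool.Agent.Helper20.NP

open Pool.Agent.Helper21.DN

universe u

section pj

variable {G : Type u} [Group G] [Fintype G]

/-- a complement (hyperplane) `N` of `u` in the elementary abelian central subgroup `J` -/
theorem pj_hyp (p : ℕ) [Fact p.Prime] (J : Subgroup G) (hJ : J ≤ Subgroup.center G)
    (hp : ∀ x ∈ J, x ^ p = 1) (u : G) (hu1 : u ≠ 1) :
    ∃ N : Subgroup G, N ≤ J ∧ u ∉ N ∧ ∀ j ∈ J, ∃ i : ℤ, u ^ i * j ∈ N := by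
  classical
  obtain ⟨N, hN, hmax⟩ := Set.Finite.exists_maximalFor (fun N : Subgroup G => Nat.card N)
    {N : Subgroup G | N ≤ J ∧ u ∉ N} (Set.toFinite _)
    ⟨⊥, bot_le, by rw [Subgroup.mem_bot]; exact hu1⟩
  refine ⟨N, hN.1, hN.2, ?_⟩
  intro j hj
  by_cases hjN : j ∈ N
  · exact ⟨0, by rw [zpow_zero, one_mul]; exact hjN⟩
  -- `N ⊔ ⟨j⟩` contains `u`
  have hle : N ⊔ Subgroup.zpowers j ≤ J := sup_le hN.1 (by rw [Subgroup.zpowers_le]; exact hj)
  have hlt : N < N ⊔ Subgroup.zpowers j := by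
    refine lt_of_le_of_ne le_sup_left ?_
    intro h
    apply hjN
    rw [h]
    exact (le_sup_right : Subgroup.zpowers j ≤ N ⊔ Subgroup.zpowers j) (Subgroup.mem_zpowers j)
  have huS : u ∈ N ⊔ Subgroup.zpowers j := by
    by_contra hcon
    have h1 : Nat.card ↥(N ⊔ Subgroup.zpowers j) ≤ Nat.card N :=
      hmax ⟨hle, hcon⟩ (Subgroup.card_le_of_le le_sup_left)
    have h2 : N = N ⊔ Subgroup.zpowers j :=
      Subgroup.eq_of_le_of_card_ge le_sup_left h1
    exact (ne_of_lt hlt) h2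
  have hnorm : (Subgroup.zpowers j).Normal := by
    refine ⟨fun x hx g => ?_⟩
    have hxJ : x ∈ J := (Subgroup.zpowers_le.mpr hj) hx
    have := Subgroup.mem_center_iff.mp (hJ hxJ) g
    rw [this, mul_assoc, mul_inv_cancel, mul_one]
    exact hx
  obtain ⟨n, hn, y, hy, hny⟩ := (Subgroup.mem_sup_of_normal_right).mp huS
  obtain ⟨i, rfl⟩ := Subgroup.mem_zpowers_iff.mp hy
  -- `i` is prime to `p`
  have hpi : ¬ (p : ℤ) ∣ i := by
    rintro ⟨m, rfl⟩
    apply hN.2
    have h1 : j ^ ((p : ℤ) * m) = 1 := by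
      rw [zpow_mul, zpow_natCast, hp j hj, one_zpow]
    rw [← hny, h1, mul_one]
    exact hn
  have hcop : IsCoprime i (p : ℤ) := by
    have h2 : Prime (p : ℤ) := Nat.prime_iff_prime_int.mp (Fact.out : p.Prime)
    exact ((Prime.coprime_iff_not_dvd h2).mpr hpi).symm
  obtain ⟨a, b, hab⟩ := hcop
  refine ⟨-a, ?_⟩
  -- `u = n j^i`, so `u^a = n^a j^(ai) = n^a j`
  have hcomm : Commute n (j ^ i) := (Subgroup.mem_center_iff.mp (hJ (J.zpow_mem hj i)) n)
  have h3 : u ^ a = n ^ a * j := by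
    rw [← hny, hcomm.mul_zpow, ← zpow_mul]
    congr 1
    have h4 : i * a = 1 - b * p := by linarith
    rw [h4, zpow_sub, zpow_one, mul_comm b, zpow_mul, zpow_natCast, hp j hj, one_zpow, inv_one,
      mul_one]
  rw [zpow_neg, h3, mul_inv_rev, mul_assoc]
  have hjc := Subgroup.mem_center_iff.mp (hJ hj)
  have h5 : j⁻¹ * ((n ^ a)⁻¹ * j) = (n ^ a)⁻¹ := by
    rw [hjc, ← mul_assoc, inv_mul_cancel, one_mul]
  rw [h5]
  exact N.inv_mem (N.zpow_mem hn a)

open scoped Classical in
/-- summation over the fibres of the quotient map -/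
theorem pj_fib (f : G → ℕ) (N : Subgroup G) [N.Normal] [Fintype (G ⧸ N)] (fQ : G ⧸ N → ℕ)
    (T : G ⧸ N → Prop)
    (h : ∀ g : G, T (g : G ⧸ N) → Nat.card N * fQ (g : G ⧸ N) = cs f N g) :
    Nat.card N * ∑ q ∈ Finset.univ.filter (fun q => T q), fQ q =
      ∑ g ∈ Finset.univ.filter (fun g : G => T (g : G ⧸ N)), f g := by
  rw [Finset.mul_sum]
  rw [← Finset.sum_fiberwise_of_maps_to (s := Finset.univ.filter (fun g : G => T (g : G ⧸ N)))
    (t := Finset.univ.filter (fun q => T q)) (g := fun g : G => (g : G ⧸ N)) (f := f)]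
  · apply Finset.sum_congr rfl
    intro q hq
    obtain ⟨g0, rfl⟩ := QuotientGroup.mk_surjective q
    rw [Finset.mem_filter] at hq
    rw [h g0 hq.2, cs]
    symm
    apply Finset.sum_nbij' (fun g => g0⁻¹ * g) (fun g => g0 * g)
    · intro g hg
      rw [Finset.mem_filter, Finset.mem_filter] at hg
      rw [Finset.mem_filter]
      exact ⟨Finset.mem_univ _, QuotientGroup.eq.mp hg.2.symm⟩
    · intro g hg
      rw [Finset.mem_filter] at hg
      rw [Finset.mem_filter, Finset.mem_filter]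
      have h1 : ((g0 * g : G) : G ⧸ N) = (g0 : G ⧸ N) := by
        rw [QuotientGroup.mk_mul_of_mem g0 hg.2]
      exact ⟨⟨Finset.mem_univ _, by rw [h1]; exact hq.2⟩, h1⟩
    · intro g _; simp
    · intro g _; simp
    · intro g _; simp
  · intro g hg
    rw [Finset.mem_filter] at hg ⊢
    exact ⟨Finset.mem_univ _, hg.2⟩

open scoped Classical in
theorem pj_cs (s : G → ℕ) (J : Subgroup G) (g : G) :
    cs s J g = s g + ∑ j ∈ Finset.univ.filter (fun j => j ∈ J ∧ j ≠ 1), s (g * j) := by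
  rw [cs]
  have h1 : (Finset.univ.filter (fun j => j ∈ J)) =
      insert (1 : G) (Finset.univ.filter (fun j => j ∈ J ∧ j ≠ 1)) := by
    ext j
    simp only [Finset.mem_filter, Finset.mem_univ, true_and, Finset.mem_insert]
    constructor
    · intro hj
      by_cases h : j = 1
      · left; exact h
      · right; exact ⟨hj, h⟩
    · rintro (rfl | h)
      · exact J.one_mem
      · exact h.1
  rw [h1, Finset.sum_insert (by simp), mul_one]

open scoped Classical in
/-- the sum over a coset, `g0` with the largest value -/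
theorem pj_cos (hCOS : ST_COS.{u}) (s : G → ℕ) (hs : RF s) (J : Subgroup G) (g : G) (hg : g ∉ J) :
    ∃ g0 : G, g0 ∉ J ∧ s g ≤ s g0 ∧ g⁻¹ * g0 ∈ J ∧
    cs s J g = s g0 + ∑ j ∈ Finset.univ.filter (fun j => j ∈ J ∧ j ≠ 1), min (s g0) (s j) := by
  obtain ⟨g0, hg0, hgg, hmax, hmin⟩ := hCOS G s hs J g hg
  refine ⟨g0, hg0, ?_, hgg, ?_⟩
  · have h1 := hmax (g⁻¹ * g0)⁻¹ (J.inv_mem hgg)
    have h2 : g0 * (g⁻¹ * g0)⁻¹ = g := by group
    rwa [h2] at h1
  · have h1 : cs s J g = cs s J g0 := by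
      rw [cs, cs]
      apply Finset.sum_nbij' (fun j => g0⁻¹ * g * j) (fun j => g⁻¹ * g0 * j)
      · intro j hj
        rw [Finset.mem_filter] at hj ⊢
        refine ⟨Finset.mem_univ _, J.mul_mem ?_ hj.2⟩
        have := J.inv_mem hgg
        rwa [show (g⁻¹ * g0)⁻¹ = g0⁻¹ * g by group] at this
      · intro j hj
        rw [Finset.mem_filter] at hj ⊢
        exact ⟨Finset.mem_univ _, J.mul_mem hgg hj.2⟩
      · intro j _; group
      · intro j _; group
      · intro j _
        congr 1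
        group
    rw [h1, pj_cs]
    congr 1
    apply Finset.sum_congr rfl
    intro j hj
    rw [Finset.mem_filter] at hj
    exact hmin j hj.2.1 hj.2.2

omit [Fintype G] in
/-- value of a ramification function at powers -/
theorem pj_pow (s : G → ℕ) (hs : RF s) (z : G) (hz : z ≠ 1) (n : ℕ) (hn : z ^ n ≠ 1) :
    s z ≤ s (z ^ n) := by
  induction n with
  | zero => exact absurd (pow_zero z) hn
  | succ n ih =>
    by_cases h : z ^ n = 1
    · rw [pow_succ, h, one_mul]
    · have h1 := hs.mul (z ^ n) z h hz (by rw [← pow_succ]; exact hn)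
      rw [← pow_succ] at h1
      exact le_trans (le_min (ih h) le_rfl) h1

open scoped Classical in
theorem pj_S1 (f : G → ℕ) (J : Subgroup G) : SI f J + SO f J = S1 f := by
  rw [SI, SO, S1, ← Finset.sum_filter_add_sum_filter_not
    (Finset.univ.filter (fun g : G => g ≠ 1)) (fun g => g ∈ J)]
  congr 1
  · apply Finset.sum_congr _ (fun _ _ => rfl)
    ext g
    simp only [Finset.mem_filter, Finset.mem_univ, true_and]
    exact and_comm
  · apply Finset.sum_congr _ (fun _ _ => rfl)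
    ext g
    simp only [Finset.mem_filter, Finset.mem_univ, true_and]
    constructor
    · intro h
      refine ⟨?_, h⟩
      rintro rfl
      exact h J.one_mem
    · exact fun h => h.2

open scoped Classical in
theorem pj_phi (f : G → ℕ) (J : Subgroup G) (y : G) :
    (Fintype.card G : ℝ) * phi f (f y) ≤
      ((f y + ∑ j ∈ Finset.univ.filter (fun j => j ∈ J ∧ j ≠ 1), min (f y) (f j) + SO f J : ℕ) :
        ℝ) := by
  have hc : (Fintype.card G : ℝ) ≠ 0 := by
    exact_mod_cast Fintype.card_ne_zero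
  rw [phi, mul_div_cancel₀ _ hc]
  have h1 : ∑ g ∈ Finset.univ.filter (fun g : G => g ≠ 1), min (f g : ℝ) (f y) =
      ((∑ g ∈ Finset.univ.filter (fun g : G => g ≠ 1), min (f y) (f g) : ℕ) : ℝ) := by
    push_cast
    apply Finset.sum_congr rfl
    intro g _
    rw [min_comm]
  rw [h1]
  have h2 : ∑ g ∈ Finset.univ.filter (fun g : G => g ≠ 1), min (f y) (f g) ≤
      ∑ j ∈ Finset.univ.filter (fun j => j ∈ J ∧ j ≠ 1), min (f y) (f j) + SO f J := by
    rw [← Finset.sum_filter_add_sum_filter_not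
      (Finset.univ.filter (fun g : G => g ≠ 1)) (fun g => g ∈ J), SO]
    apply add_le_add
    · apply le_of_eq
      apply Finset.sum_congr _ (fun _ _ => rfl)
      ext g
      simp only [Finset.mem_filter, Finset.mem_univ, true_and]
      exact and_comm
    · calc _ ≤ ∑ g ∈ (Finset.univ.filter (fun g : G => g ≠ 1)).filter (fun g => ¬ g ∈ J), f g :=
            Finset.sum_le_sum (fun g _ => min_le_right _ _)
        _ ≤ _ := by
            apply Finset.sum_le_sum_of_subset
            intro g hg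
            rw [Finset.mem_filter, Finset.mem_filter] at hg
            rw [Finset.mem_filter]
            exact ⟨Finset.mem_univ _, hg.2⟩
  have h3 : f y + ∑ g ∈ Finset.univ.filter (fun g : G => g ≠ 1), min (f y) (f g) ≤
      f y + ∑ j ∈ Finset.univ.filter (fun j => j ∈ J ∧ j ≠ 1), min (f y) (f j) + SO f J := by
    rw [add_assoc]
    exact Nat.add_le_add_left h2 _
  exact_mod_cast h3

end pj

theorem st_PJ (hRGF : ST_RGF.{u}) (hRQ : ST_RQ.{u}) (hRP : ST_RP.{u}) (hQS : ST_QS.{u})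
    (hCOS : ST_COS.{u}) (hPHM : ST_PHM.{u}) : ST_PJ.{u} := by
  classical
  intro p hp hp2 G _ _ f hf J hJc hJ1 hJp hJcomm y hy
  have hGRF := hRGF p G f hf
  have hRF : RF f := hGRF.rf
  have hpJ : ∀ x ∈ J, x ^ p = 1 := fun x hx => (hJ1 x).mpr hx
  -- `y1` outside `J` with `f` maximal
  obtain ⟨y1, hy1, hmax⟩ : ∃ y1 : G, y1 ∉ J ∧ ∀ g : G, g ∉ J → f g ≤ f y1 := by
    obtain ⟨y1, h1, h2⟩ := Finset.exists_max_image (Finset.univ.filter (fun g : G => g ∉ J)) f
      ⟨y, by rw [Finset.mem_filter]; exact ⟨Finset.mem_univ _, hy⟩⟩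
    rw [Finset.mem_filter] at h1
    exact ⟨y1, h1.2, fun g hg => h2 g (by rw [Finset.mem_filter]; exact ⟨Finset.mem_univ _, hg⟩)⟩
  have hu : y1 ^ p ∈ J := hJp y1
  have hu1 : y1 ^ p ≠ 1 := fun h => hy1 ((hJ1 y1).mp h)
  obtain ⟨u, hudef⟩ : ∃ u : G, u = y1 ^ p := ⟨_, rfl⟩
  rw [← hudef] at hu hu1
  obtain ⟨N, hNJ, huN, hN⟩ := pj_hyp p J hJc hpJ u hu1
  have hNn : N.Normal := by
    refine ⟨fun x hx g => ?_⟩
    have := Subgroup.mem_center_iff.mp (hJc (hNJ hx)) g
    rw [this, mul_assoc, mul_inv_cancel, mul_one]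
    exact hx
  have : Fintype (G ⧸ N) := Fintype.ofFinite _
  obtain ⟨fQ, hfQ, hfQN⟩ := hRQ p G f hf N
  have hRFQ : RF fQ := (hRGF p (G ⧸ N) fQ hfQ).rf
  obtain ⟨hQ1, hQ2, hQ3, hQ4⟩ := hQS p G f hRF N fQ hfQN
  obtain ⟨ζ, hζdef⟩ : ∃ ζ : G ⧸ N, ζ = ((u : G) : G ⧸ N) := ⟨_, rfl⟩
  have hζ1 : ζ ≠ 1 := by
    rw [hζdef, Ne, QuotientGroup.eq_one_iff]
    exact huN
  -- the subgroup generated by `ζ`
  have hmemZ : ∀ g : G, ((g : G) : G ⧸ N) ∈ Subgroup.zpowers ζ ↔ g ∈ J := by
    intro g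
    constructor
    · intro h
      obtain ⟨i, hi⟩ := Subgroup.mem_zpowers_iff.mp h
      rw [hζdef, ← QuotientGroup.mk_zpow] at hi
      have h2 := QuotientGroup.eq.mp hi
      have h3 : g = u ^ i * ((u ^ i)⁻¹ * g) := by group
      rw [h3]
      exact J.mul_mem (J.zpow_mem hu i) (hNJ h2)
    · intro h
      obtain ⟨i, hi⟩ := hN g h
      have h2 : ((g : G) : G ⧸ N) = ζ ^ (-i) := by
        rw [hζdef, ← QuotientGroup.mk_zpow]
        symm
        apply QuotientGroup.eq.mpr
        rw [zpow_neg, inv_inv]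
        exact hi
      rw [h2]
      exact (Subgroup.zpowers ζ).zpow_mem (Subgroup.mem_zpowers ζ) _
  have hζc : ζ ∈ Subgroup.center (G ⧸ N) := by
    rw [Subgroup.mem_center_iff]
    intro q
    obtain ⟨g, rfl⟩ := QuotientGroup.mk_surjective q
    have h1 := Subgroup.mem_center_iff.mp (hJc hu) g
    rw [hζdef]
    show ((g * u : G) : G ⧸ N) = ((u * g : G) : G ⧸ N)
    rw [h1]
  have hζp : ζ ^ p = 1 := by
    rw [hζdef]
    show ((u ^ p : G) : G ⧸ N) = 1
    rw [hpJ u hu]
    rfl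
  have hord : orderOf ζ = p := orderOf_eq_prime hζp hζ1
  -- coset sums
  have hcs : ∀ g : G, g ∉ J → Nat.card N * cs fQ (Subgroup.zpowers ζ) (g : G ⧸ N) = cs f J g := by
    intro g hg
    have h1 := pj_fib f N fQ (fun q => ((g : G) : G ⧸ N)⁻¹ * q ∈ Subgroup.zpowers ζ) (by
      intro g' hg'
      apply hfQN
      intro h
      apply hg
      have h2 : ((g⁻¹ * g' : G) : G ⧸ N) ∈ Subgroup.zpowers ζ := hg'
      have h3 := (hmemZ _).mp h2
      have h4 : g = g' * (g⁻¹ * g')⁻¹ := by group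
      rw [h4]
      exact J.mul_mem (hNJ h) (J.inv_mem h3))
    have h2 : cs fQ (Subgroup.zpowers ζ) (g : G ⧸ N) =
        ∑ q ∈ Finset.univ.filter (fun q => ((g : G) : G ⧸ N)⁻¹ * q ∈ Subgroup.zpowers ζ), fQ q := by
      rw [cs]
      apply Finset.sum_nbij' (fun q => ((g : G) : G ⧸ N) * q) (fun q => ((g : G) : G ⧸ N)⁻¹ * q)
      · intro q hq
        rw [Finset.mem_filter] at hq ⊢
        refine ⟨Finset.mem_univ _, ?_⟩
        rw [inv_mul_cancel_left]
        exact hq.2
      · intro q hq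
        rw [Finset.mem_filter] at hq ⊢
        exact ⟨Finset.mem_univ _, hq.2⟩
      · intro q _; simp
      · intro q _; simp
      · intro q _; rfl
    rw [h2, h1, cs]
    symm
    apply Finset.sum_nbij' (fun j => g * j) (fun j => g⁻¹ * j)
    · intro j hj
      rw [Finset.mem_filter] at hj ⊢
      refine ⟨Finset.mem_univ _, ?_⟩
      show ((g⁻¹ * (g * j) : G) : G ⧸ N) ∈ Subgroup.zpowers ζ
      rw [inv_mul_cancel_left]
      exact (hmemZ j).mpr hj.2
    · intro j hj
      rw [Finset.mem_filter] at hj ⊢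
      exact ⟨Finset.mem_univ _, (hmemZ _).mp hj.2⟩
    · intro j _; simp
    · intro j _; simp
    · intro j _; rfl
  have hSO : Nat.card N * SO fQ (Subgroup.zpowers ζ) = SO f J := by
    have h1 := pj_fib f N fQ (fun q => q ∉ Subgroup.zpowers ζ) (by
      intro g' hg'
      apply hfQN
      intro h
      exact hg' ((hmemZ g').mpr (hNJ h)))
    refine Eq.trans ?_ (h1.trans ?_)
    · rw [SO]
      exact congrArg _ (Finset.sum_congr (by ext q; simp only [Finset.mem_filter])
        (fun _ _ => rfl))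
    rw [SO]
    apply Finset.sum_congr _ (fun _ _ => rfl)
    ext g
    simp only [Finset.mem_filter, Finset.mem_univ, true_and]
    exact not_congr (hmemZ g)
  -- `SI_J ≥ SI_N + (p - 1) |N| fQ ζ`
  have hSI : SI f N + (p - 1) * (Nat.card N * fQ ζ) ≤ SI f J := by
    have h1 := pj_fib f N fQ (fun q => q ∈ Subgroup.zpowers ζ ∧ q ≠ 1) (by
      intro g' hg'
      apply hfQN
      intro h
      exact hg'.2 ((QuotientGroup.eq_one_iff g').mpr h))
    have h2 : (p - 1) * fQ ζ ≤
        ∑ q ∈ Finset.univ.filter (fun q => q ∈ Subgroup.zpowers ζ ∧ q ≠ 1), fQ q := by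
      have h3 : (Finset.univ.filter (fun q => q ∈ Subgroup.zpowers ζ ∧ q ≠ 1)).card = p - 1 := by
        have h4 : (Finset.univ.filter (fun q => q ∈ Subgroup.zpowers ζ ∧ q ≠ 1)) =
            (Finset.univ.filter (fun q => q ∈ Subgroup.zpowers ζ)).erase 1 := by
          ext q
          simp only [Finset.mem_filter, Finset.mem_univ, true_and, Finset.mem_erase]
          exact and_comm
        rw [h4, Finset.card_erase_of_mem]
        · congr 1
          have h5 : (Finset.univ.filter (fun q => q ∈ Subgroup.zpowers ζ)).card =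
              Nat.card (Subgroup.zpowers ζ) := by
            rw [Nat.card_eq_fintype_card, Fintype.card_subtype]
          rw [h5, Nat.card_zpowers, hord]
        · rw [Finset.mem_filter]
          exact ⟨Finset.mem_univ _, (Subgroup.zpowers ζ).one_mem⟩
      rw [← h3, ← smul_eq_mul]
      apply Finset.card_nsmul_le_sum
      intro q hq
      rw [Finset.mem_filter] at hq
      obtain ⟨n, rfl⟩ := (mem_powers_iff_mem_zpowers.mpr hq.2.1 : q ∈ Submonoid.powers ζ)
      exact pj_pow fQ hRFQ ζ hζ1 n hq.2.2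
    have h4 : (p - 1) * (Nat.card N * fQ ζ) ≤
        ∑ g ∈ Finset.univ.filter (fun g : G => ((g : G) : G ⧸ N) ∈ Subgroup.zpowers ζ ∧
          ((g : G) : G ⧸ N) ≠ 1), f g := by
      calc (p - 1) * (Nat.card N * fQ ζ) = Nat.card N * ((p - 1) * fQ ζ) := by ring
        _ ≤ Nat.card N *
            ∑ q ∈ Finset.univ.filter (fun q => q ∈ Subgroup.zpowers ζ ∧ q ≠ 1), fQ q :=
            Nat.mul_le_mul_left _ h2
        _ = _ := by
            refine Eq.trans ?_ (h1.trans ?_)
            · exact congrArg _ (Finset.sum_congr (by ext q; simp only [Finset.mem_filter])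
                (fun _ _ => rfl))
            · exact Finset.sum_congr (by ext q; simp only [Finset.mem_filter]) (fun _ _ => rfl)
    refine le_trans (Nat.add_le_add_left h4 _) ?_
    rw [SI, SI, ← Finset.sum_union]
    · apply Finset.sum_le_sum_of_subset
      intro g hg
      rw [Finset.mem_union, Finset.mem_filter, Finset.mem_filter] at hg
      rw [Finset.mem_filter]
      rcases hg with hg | hg
      · exact ⟨Finset.mem_univ _, hNJ hg.2.1, hg.2.2⟩
      · refine ⟨Finset.mem_univ _, (hmemZ g).mp hg.2.1, ?_⟩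
        rintro rfl
        exact hg.2.2 rfl
    · rw [Finset.disjoint_left]
      intro g hg hg'
      rw [Finset.mem_filter] at hg hg'
      exact hg'.2.2 ((QuotientGroup.eq_one_iff g).mpr hg.2.1)
  have hζle : Nat.card N * fQ ζ ≤ x0 f + SI f N := by
    have h1 := hQ4 u huN
    rw [← hfQN u huN, ← hζdef] at h1
    exact h1
  -- the hypotheses of RP
  have hNpos : 0 < Nat.card N := Nat.card_pos
  have hmaxQ : ∀ q : G ⧸ N, q ∉ Subgroup.zpowers ζ →
      cs fQ (Subgroup.zpowers ζ) q ≤ cs fQ (Subgroup.zpowers ζ) ((y1 : G) : G ⧸ N) := by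
    intro q hq
    obtain ⟨g, rfl⟩ := QuotientGroup.mk_surjective q
    have hg : g ∉ J := fun h => hq ((hmemZ g).mpr h)
    apply Nat.le_of_mul_le_mul_left _ hNpos
    have e1 : Nat.card N * cs fQ (Subgroup.zpowers ζ) (QuotientGroup.mk g) = cs f J g := hcs g hg
    rw [e1, hcs y1 hy1]
    obtain ⟨g0, hg0, -, -, e2⟩ := pj_cos hCOS f hRF J g hg
    obtain ⟨y0, hy0, hyy, -, e3⟩ := pj_cos hCOS f hRF J y1 hy1
    rw [e2, e3]
    have h5 : f g0 ≤ f y0 := le_trans (hmax g0 hg0) hyy
    apply add_le_add h5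
    apply Finset.sum_le_sum
    intro j _
    exact min_le_min h5 le_rfl
  have hRPy := hRP p hp2 (G ⧸ N) fQ hfQ ζ hζc hord
    (by
      intro q
      obtain ⟨g, rfl⟩ := QuotientGroup.mk_surjective q
      have h1 : ((g ^ p : G) : G ⧸ N) ∈ Subgroup.zpowers ζ := (hmemZ _).mpr (hJp g)
      exact h1)
    (by
      intro q q'
      obtain ⟨g, rfl⟩ := QuotientGroup.mk_surjective q
      obtain ⟨g', rfl⟩ := QuotientGroup.mk_surjective q'
      have h1 : ((g * g' * g⁻¹ * g'⁻¹ : G) : G ⧸ N) ∈ Subgroup.zpowers ζ :=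
        (hmemZ _).mpr (hJcomm g g')
      exact h1)
    ((y1 : G) : G ⧸ N)
    (by
      intro h
      apply hζ1
      rw [hζdef, hudef]
      exact h)
    hmaxQ
  -- conclusion
  have hA := Nat.mul_le_mul_left (Nat.card N) hRPy
  have e1 : Nat.card N * (p * (cs fQ (Subgroup.zpowers ζ) ((y1 : G) : G ⧸ N) +
      SO fQ (Subgroup.zpowers ζ))) = p * (cs f J y1 + SO f J) := by
    rw [← hcs y1 hy1, ← hSO]
    ring
  have e2 : Nat.card N * (p * fQ ζ + SO fQ (Subgroup.zpowers ζ)) =
      p * (Nat.card N * fQ ζ) + SO f J := by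
    rw [← hSO]
    ring
  rw [e1, e2] at hA
  have hpp : p * (Nat.card N * fQ ζ) = (p - 1) * (Nat.card N * fQ ζ) + Nat.card N * fQ ζ := by
    have : p = (p - 1) + 1 := by have := hp.out.one_lt; omega
    conv_lhs => rw [this]
    ring
  have hfin : p * (cs f J y1 + SO f J) ≤ S1 f + x0 f := by
    have h3 := pj_S1 f J
    omega
  -- the coset of `y1`
  obtain ⟨y0, hy0, hyy, hyJ, e3⟩ := pj_cos hCOS f hRF J y1 hy1
  have hy0e : f y0 = f y1 := le_antisymm (hmax y0 hy0) hyy
  have hphi := pj_phi f J y1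
  rw [hy0e] at e3
  rw [← e3] at hphi
  have hcard : (0 : ℝ) < Fintype.card G := by exact_mod_cast Fintype.card_pos
  have hmono : phi f (f y) ≤ phi f (f y1) := by
    have h1 : (f y : ℝ) ≤ f y1 := by exact_mod_cast hmax y hy
    rcases eq_or_lt_of_le h1 with h2 | h2
    · rw [h2]
    · exact (hPHM G f (f y) (f y1) (Nat.cast_nonneg _) h2).le
  have h5 : (p : ℝ) * phi f (f y1) * Fintype.card G ≤ (S1 f : ℝ) + x0 f := by
    have h6 : (p : ℝ) * ((Fintype.card G : ℝ) * phi f (f y1)) ≤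
        p * ((cs f J y1 + SO f J : ℕ) : ℝ) :=
      mul_le_mul_of_nonneg_left hphi (Nat.cast_nonneg _)
    have h7 : (p : ℝ) * ((cs f J y1 + SO f J : ℕ) : ℝ) ≤ (S1 f : ℝ) + x0 f := by
      exact_mod_cast hfin
    linarith
  calc (p : ℝ) * phi f (f y) ≤ p * phi f (f y1) :=
        mul_le_mul_of_nonneg_left hmono (Nat.cast_nonneg _)
    _ ≤ cond f := by
        rw [Helper21.DN.cond, le_div_iff₀ hcard]
        exact h5

end Pool.Agent.Helper20.NP
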