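import Pool.Agent.Helper20.NP.Stmts

set_option autoImplicit false

namespace Pool.Agent.Helper20.NP

open Pool.Agent.Helper21.DN

universe u

section rgf

variable {A B : Type u} [Group A] [Fintype A] [Group B] [Fintype B] (j : A ≃* B)
  (s : A → ℕ) (f : B → ℕ)

/-- the preimage of a subgroup -/
def rgf_c (J : Subgroup B) : Subgroup A := J.comap j.toMonoidHom

omit [Fintype A] [Fintype B] in
theorem rgf_mem (J : Subgroup B) (a : A) : a ∈ rgf_c j J ↔ j a ∈ J := Iff.rfl

omit [Fintype A] [Fintype B] in
theorem rgf_card (J : Subgroup B) : Nat.card (rgf_c j J) = Nat.card J :=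
  Nat.card_congr
    { toFun := fun x => ⟨j x.1, x.2⟩
      invFun := fun y => ⟨j.symm y.1, by
        rw [rgf_mem, MulEquiv.apply_symm_apply]; exact y.2⟩
      left_inv := fun x => by simp
      right_inv := fun y => by simp }

open scoped Classical in
theorem rgf_sum (P : B → Prop) (hP : ∀ b, P b → b ≠ 1) (h : ∀ a : A, a ≠ 1 → f (j a) = s a) :
    ∑ b ∈ Finset.univ.filter (fun b => P b), f b =
      ∑ a ∈ Finset.univ.filter (fun a => P (j a)), s a := by
  symm
  apply Finset.sum_nbij' (fun a => j a) (fun b => j.symm b)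
  · intro a ha
    rw [Finset.mem_filter] at ha ⊢
    exact ⟨Finset.mem_univ _, ha.2⟩
  · intro b hb
    rw [Finset.mem_filter] at hb ⊢
    refine ⟨Finset.mem_univ _, ?_⟩
    rw [MulEquiv.apply_symm_apply]
    exact hb.2
  · intro a _; simp
  · intro b _; simp
  · intro a ha
    rw [Finset.mem_filter] at ha
    symm
    apply h
    rintro rfl
    exact hP _ ha.2 (map_one j)

theorem rgf_cs (h : ∀ a : A, a ≠ 1 → f (j a) = s a) (J : Subgroup B) (a : A)
    (ha : a ∉ rgf_c j J) : cs f J (j a) = cs s (rgf_c j J) a := by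
  classical
  rw [cs, cs]
  symm
  apply Finset.sum_nbij' (fun x => j x) (fun b => j.symm b)
  · intro x hx
    rw [Finset.mem_filter] at hx ⊢
    exact ⟨Finset.mem_univ _, hx.2⟩
  · intro b hb
    rw [Finset.mem_filter] at hb ⊢
    refine ⟨Finset.mem_univ _, ?_⟩
    rw [rgf_mem, MulEquiv.apply_symm_apply]
    exact hb.2
  · intro x _; simp
  · intro b _; simp
  · intro x hx
    rw [Finset.mem_filter] at hx
    rw [← map_mul]
    symm
    apply h
    intro h1
    apply ha
    have h2 : a = x⁻¹ := eq_inv_of_mul_eq_one_left h1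
    rw [h2]
    exact Subgroup.inv_mem _ hx.2

theorem rgf_S1 (h : ∀ a : A, a ≠ 1 → f (j a) = s a) : S1 f = S1 s := by
  classical
  rw [S1, S1]
  have h1 := rgf_sum j s f (fun b => b ≠ 1) (fun b hb => hb) h
  refine Eq.trans ?_ (h1.trans ?_)
  · exact Finset.sum_congr (by ext q; simp only [Finset.mem_filter]) (fun _ _ => rfl)
  · apply Finset.sum_congr _ (fun _ _ => rfl)
    ext a
    simp only [Finset.mem_filter, Finset.mem_univ, true_and, Ne, EmbeddingLike.map_eq_one_iff]

theorem rgf_SO (h : ∀ a : A, a ≠ 1 → f (j a) = s a) (J : Subgroup B) :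
    SO f J = SO s (rgf_c j J) := by
  classical
  rw [SO, SO]
  have h1 := rgf_sum j s f (fun b => b ∉ J) (fun b hb hb1 => hb (by rw [hb1]; exact J.one_mem)) h
  refine Eq.trans ?_ (h1.trans ?_)
  · exact Finset.sum_congr (by ext q; simp only [Finset.mem_filter]) (fun _ _ => rfl)
  · apply Finset.sum_congr _ (fun _ _ => rfl)
    ext a
    simp only [Finset.mem_filter, Finset.mem_univ, true_and]
    rfl

theorem rgf_sup (P : B → Prop) [DecidablePred P] [DecidablePred (fun a : A => P (j a))]
    (F : B → ℕ) (F' : A → ℕ) (h : ∀ a : A, P (j a) → F (j a) = F' a) :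
    (Finset.univ.filter (fun b => P b)).sup F =
      (Finset.univ.filter (fun a => P (j a))).sup F' := by
  apply le_antisymm
  · apply Finset.sup_le
    intro b hb
    rw [Finset.mem_filter] at hb
    have h1 : F b = F' (j.symm b) := by
      have := h (j.symm b) (by rw [MulEquiv.apply_symm_apply]; exact hb.2)
      rwa [MulEquiv.apply_symm_apply] at this
    rw [h1]
    apply Finset.le_sup (f := F')
    rw [Finset.mem_filter]
    refine ⟨Finset.mem_univ _, ?_⟩
    rw [MulEquiv.apply_symm_apply]
    exact hb.2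
  · apply Finset.sup_le
    intro a ha
    rw [Finset.mem_filter] at ha
    rw [← h a ha.2]
    apply Finset.le_sup (f := F)
    rw [Finset.mem_filter]
    exact ⟨Finset.mem_univ _, ha.2⟩

theorem rgf_x0 (h : ∀ a : A, a ≠ 1 → f (j a) = s a) : x0 f = x0 s := by
  classical
  rw [x0, x0]
  have h1 := rgf_sup j (fun b => b ≠ 1) f s (fun a ha => h a (by
    rintro rfl
    exact ha (map_one j)))
  refine Eq.trans ?_ (h1.trans ?_)
  · exact congrArg (fun S => Finset.sup S f) (by ext q; simp only [Finset.mem_filter])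
  · refine congrArg (fun S => Finset.sup S s) ?_
    ext a
    simp only [Finset.mem_filter, Finset.mem_univ, true_and, Ne, EmbeddingLike.map_eq_one_iff]

omit [Fintype A] [Fintype B] in
theorem rgf_RF (h : ∀ a : A, a ≠ 1 → f (j a) = s a) (hs : RF s) : RF f := by
  have hf : ∀ b : B, b ≠ 1 → f b = s (j.symm b) := by
    intro b hb
    have h1 := h (j.symm b) (by
      rw [Ne, EmbeddingLike.map_eq_one_iff]; exact hb)
    rwa [MulEquiv.apply_symm_apply] at h1
  have hne : ∀ b : B, b ≠ 1 → j.symm b ≠ 1 := by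
    intro b hb
    rw [Ne, EmbeddingLike.map_eq_one_iff]; exact hb
  refine ⟨?_, ?_, ?_, ?_⟩
  · intro g hg
    rw [hf g hg]
    exact hs.pos _ (hne g hg)
  · intro g g' hg hg' hgg
    rw [hf g hg, hf g' hg', hf _ hgg, map_mul]
    exact hs.mul _ _ (hne g hg) (hne g' hg') (by rw [← map_mul]; exact hne _ hgg)
  · intro g
    by_cases hg : g = 1
    · rw [hg, inv_one]
    · rw [hf g hg, hf _ (inv_ne_one.mpr hg), map_inv]
      exact hs.inv _
  · intro g g'
    by_cases hg : g = 1
    · rw [hg, mul_one, mul_inv_cancel]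
    · have hg1 : g' * g * g'⁻¹ ≠ 1 := by
        intro h1
        exact hg (conj_eq_one_iff.mp h1)
      rw [hf g hg, hf _ hg1, map_mul, map_mul, map_inv]
      exact hs.conj _ _

theorem rgf_GRF (h : ∀ a : A, a ≠ 1 → f (j a) = s a) (hs : GRF s) : GRF f := by
  classical
  have hle : ∀ H J : Subgroup B, J ≤ H → rgf_c j J ≤ rgf_c j H := fun H J hJH a ha => hJH ha
  have hnorm : ∀ H J : Subgroup B, J ≤ H → (J.subgroupOf H).Normal →
      ((rgf_c j J).subgroupOf (rgf_c j H)).Normal := by
    intro H J hJH hn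
    rw [Subgroup.normal_subgroupOf_iff hJH] at hn
    rw [Subgroup.normal_subgroupOf_iff (hle H J hJH)]
    intro x y hx hy
    rw [rgf_mem, map_mul, map_mul, map_inv]
    exact hn _ _ hx hy
  refine ⟨rgf_RF j s f h hs.rf, ?_, ?_⟩
  · intro H J hJH hn b hb hbJ
    obtain ⟨a, rfl⟩ := j.surjective b
    rw [rgf_cs j s f h J a hbJ, ← rgf_card j J]
    exact hs.int (rgf_c j H) (rgf_c j J) (hle H J hJH) (hnorm H J hJH hn) a hb hbJ
  · intro H J hJH hn hne hcyc
    have hn' := hnorm H J hJH hn
    have hne' : rgf_c j J ≠ rgf_c j H := by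
      intro h1
      apply hne
      ext b
      obtain ⟨a, rfl⟩ := j.surjective b
      rw [← rgf_mem, ← rgf_mem, h1]
    have hcyc' : IsCyclic (rgf_c j H ⧸ (rgf_c j J).subgroupOf (rgf_c j H)) := by
      have hmem : ∀ x : H, j.symm x.1 ∈ rgf_c j H := by
        intro x
        rw [rgf_mem, MulEquiv.apply_symm_apply]
        exact x.2
      let φ : H →* rgf_c j H :=
        (j.symm.toMonoidHom.comp H.subtype).codRestrict (rgf_c j H) hmem
      have hφ : Function.Surjective φ := by
        intro y
        refine ⟨⟨j y.1, y.2⟩, ?_⟩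
        apply Subtype.ext
        show j.symm (j y.1) = y.1
        rw [MulEquiv.symm_apply_apply]
      have hker : J.subgroupOf H ≤ ((rgf_c j J).subgroupOf (rgf_c j H)).comap φ := by
        intro x hx
        show j (j.symm x.1) ∈ J
        rw [MulEquiv.apply_symm_apply]
        exact hx
      have hsurj : Function.Surjective (QuotientGroup.map (J.subgroupOf H)
          ((rgf_c j J).subgroupOf (rgf_c j H)) φ hker) := by
        intro q
        obtain ⟨y, rfl⟩ := QuotientGroup.mk_surjective q
        obtain ⟨x, rfl⟩ := hφ y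
        exact ⟨(x : H ⧸ J.subgroupOf H), rfl⟩
      exact isCyclic_of_surjective _ hsurj
    have h1 := hs.cyc (rgf_c j H) (rgf_c j J) (hle H J hJH) hn' hne' hcyc'
    rw [rgf_card] at h1
    have e1 : ∑ b ∈ Finset.univ.filter (fun b => b ∈ H ∧ b ∉ J), f b =
        ∑ a ∈ Finset.univ.filter (fun a => a ∈ rgf_c j H ∧ a ∉ rgf_c j J), s a := by
      have h2 := rgf_sum j s f (fun b => b ∈ H ∧ b ∉ J)
        (fun b hb hb1 => hb.2 (by rw [hb1]; exact J.one_mem)) h
      refine Eq.trans ?_ (h2.trans ?_)
      · exact Finset.sum_congr (by ext q; simp only [Finset.mem_filter]) (fun _ _ => rfl)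
      · apply Finset.sum_congr _ (fun _ _ => rfl)
        ext a
        simp only [Finset.mem_filter, Finset.mem_univ, true_and]
        rfl
    have e2 : (Finset.univ.filter (fun b => b ∈ H ∧ b ∉ J)).sup (fun b => cs f J b) =
        (Finset.univ.filter (fun a => a ∈ rgf_c j H ∧ a ∉ rgf_c j J)).sup
          (fun a => cs s (rgf_c j J) a) := by
      have h2 := rgf_sup j (fun b => b ∈ H ∧ b ∉ J) (fun b => cs f J b)
        (fun a => cs s (rgf_c j J) a) (fun a ha => rgf_cs j s f h J a ha.2)
      refine Eq.trans ?_ (h2.trans ?_)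
      · exact congrArg (fun S => Finset.sup S (fun b => cs f J b))
          (by ext q; simp only [Finset.mem_filter])
      · refine congrArg (fun S => Finset.sup S (fun a => cs s (rgf_c j J) a)) ?_
        ext a
        simp only [Finset.mem_filter, Finset.mem_univ, true_and]
        rfl
    refine h1.trans (dvd_of_eq (congrArg₂ (· + ·) (Eq.trans ?_ (e1.symm.trans ?_))
      (Eq.trans ?_ (e2.symm.trans ?_))))
    · exact Finset.sum_congr (by ext q; simp only [Finset.mem_filter]) (fun _ _ => rfl)
    · exact Finset.sum_congr (by ext q; simp only [Finset.mem_filter]) (fun _ _ => rfl)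
    · exact congrArg (fun S => Finset.sup S (fun a => cs s (rgf_c j J) a))
        (by ext q; simp only [Finset.mem_filter])
    · exact congrArg (fun S => Finset.sup S (fun b => cs f J b))
        (by ext q; simp only [Finset.mem_filter])

end rgf

theorem st_RGF (hGRF : ST_GRF.{u}) : ST_RGF.{u} := by
  intro p _ G _ _ f hf
  obtain ⟨k, K, L, i1, i2, i3, i4, i5, i6, i7, i8, κ, v, D, e, j, hRam, hp, -, hfs⟩ := hf
  exact rgf_GRF j (fun σ : L ≃ₐ[K] L => s v σ) f hfs
    (hGRF p k K L κ v hRam (hp.of_equiv j.symm))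

end Pool.Agent.Helper20.NP
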