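import Pool.Agent.Helper38.NP.RGF

set_option autoImplicit false

namespace Pool.Agent.Helper20.NP

open Pool.Agent.Helper21.DN

universe u

theorem rt_center {A B : Type u} [Group A] [Group B] (j : A ≃* B) (z : B)
    (hz : z ∈ Subgroup.center B) : j.symm z ∈ Subgroup.center A := by
  rw [Subgroup.mem_center_iff] at hz ⊢
  intro a
  apply j.injective
  rw [map_mul, map_mul, MulEquiv.apply_symm_apply]
  exact hz (j a)

theorem rt_order {A B : Type u} [Group A] [Group B] (j : A ≃* B) (z : B) :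
    orderOf (j.symm z) = orderOf z := MulEquiv.orderOf_eq j.symm z

theorem st_RT (hTG : ST_TG.{u}) : ST_RT.{u} := by
  intro p hp G _ _ f hf ζ hζ hord hx
  obtain ⟨k, K, L, i1, i2, i3, i4, i5, i6, i7, i8, κ, v, D, e, j, hRam, hpG, hDif, hfs⟩ := hf
  have hζ1 : j.symm ζ ≠ 1 := by
    rw [Ne, EmbeddingLike.map_eq_one_iff]
    rintro rfl
    rw [orderOf_one] at hord
    exact hp.out.one_lt.ne hord
  have h1 := hTG p k K L κ v hRam (hpG.of_equiv j.symm) D e hDif (j.symm ζ) (rt_center j ζ hζ)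
    (by rw [rt_order]; exact hord)
    (by
      rw [← hfs _ hζ1, MulEquiv.apply_symm_apply, hx]
      exact rgf_x0 j (fun σ : L ≃ₐ[K] L => s v σ) f hfs)
  rw [rgf_S1 j (fun σ : L ≃ₐ[K] L => s v σ) f hfs, rgf_x0 j (fun σ : L ≃ₐ[K] L => s v σ) f hfs,
    ← Fintype.card_congr j.toEquiv]
  exact h1

theorem rp_zp {A B : Type u} [Group A] [Group B] (j : A ≃* B) (z : B) :
    rgf_c j (Subgroup.zpowers z) = Subgroup.zpowers (j.symm z) := by
  ext a
  rw [rgf_mem, Subgroup.mem_zpowers_iff, Subgroup.mem_zpowers_iff]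
  constructor
  · rintro ⟨i, hi⟩
    refine ⟨i, ?_⟩
    rw [← map_zpow, hi, MulEquiv.symm_apply_apply]
  · rintro ⟨i, rfl⟩
    refine ⟨i, ?_⟩
    rw [map_zpow, MulEquiv.apply_symm_apply]

theorem st_RP (hPG : ST_PG.{u}) : ST_RP.{u} := by
  intro p hp hp2 G _ _ f hf ζ hζ hord hpow hcomm y hy hmax
  obtain ⟨k, K, L, i1, i2, i3, i4, i5, i6, i7, i8, κ, v, D, e, j, hRam, hpG, hDif, hfs⟩ := hf
  have hζ1 : j.symm ζ ≠ 1 := by
    rw [Ne, EmbeddingLike.map_eq_one_iff]
    rintro rfl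
    rw [orderOf_one] at hord
    exact hp.out.one_lt.ne hord
  have hmem : ∀ b : G, j.symm b ∈ Subgroup.zpowers (j.symm ζ) ↔ b ∈ Subgroup.zpowers ζ := by
    intro b
    rw [← rp_zp, rgf_mem, MulEquiv.apply_symm_apply]
  have hyn : y ∉ Subgroup.zpowers ζ := by
    intro h
    obtain ⟨i, rfl⟩ := Subgroup.mem_zpowers_iff.mp h
    apply hy
    have h1 : ζ ^ p = 1 := by rw [← hord]; exact pow_orderOf_eq_one ζ
    rw [← zpow_natCast, ← zpow_mul, mul_comm, zpow_mul, zpow_natCast, h1, one_zpow]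
  have hcs : ∀ b : G, b ∉ Subgroup.zpowers ζ → cs f (Subgroup.zpowers ζ) b =
      cs (fun σ : L ≃ₐ[K] L => s v σ) (Subgroup.zpowers (j.symm ζ)) (j.symm b) := by
    intro b hb
    have h1 := rgf_cs j (fun σ : L ≃ₐ[K] L => s v σ) f hfs (Subgroup.zpowers ζ) (j.symm b) (by
      rw [rgf_mem, MulEquiv.apply_symm_apply]; exact hb)
    rw [MulEquiv.apply_symm_apply, rp_zp] at h1
    exact h1
  have hSO : SO f (Subgroup.zpowers ζ) =
      SO (fun σ : L ≃ₐ[K] L => s v σ) (Subgroup.zpowers (j.symm ζ)) := by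
    rw [rgf_SO j (fun σ : L ≃ₐ[K] L => s v σ) f hfs, rp_zp]
  have h1 := hPG p hp2 k K L κ v hRam (hpG.of_equiv j.symm) D e hDif (j.symm ζ)
    (rt_center j ζ hζ) (by rw [rt_order]; exact hord)
    (by
      intro x
      obtain ⟨b, rfl⟩ := j.symm.surjective x
      rw [← map_pow, hmem]
      exact hpow b)
    (by
      intro x x'
      obtain ⟨b, rfl⟩ := j.symm.surjective x
      obtain ⟨b', rfl⟩ := j.symm.surjective x'
      rw [← map_mul, ← map_inv, ← map_mul, ← map_inv, ← map_mul, hmem]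
      exact hcomm b b')
    (j.symm y)
    (by rw [← map_pow, Ne, EmbeddingLike.map_eq_one_iff]; exact hy)
    (by
      intro x hx
      obtain ⟨b, rfl⟩ := j.symm.surjective x
      have hb : b ∉ Subgroup.zpowers ζ := fun h => hx ((hmem b).mpr h)
      rw [← hcs b hb, ← hcs y hyn]
      exact hmax b hb)
  rw [hcs y hyn, hSO]
  have h2 : f ζ = s v (j.symm ζ) := by
    have := hfs (j.symm ζ) hζ1
    rwa [MulEquiv.apply_symm_apply] at this
  rw [h2]
  exact h1

end Pool.Agent.Helper20.NP
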